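import Pool.Agent.H33.MN.Iface

/-!
# MP_5ee2d0_ag, Theorem M/N, boundary divisors of type III for `h^(2,1) = 2`: lifting one section

Let `pi : XX -> Delta` be a `K`-trivial model over the local ring of a prime divisor `b` of the base
of the family (completed: `Delta` is a disc), with special fibre `X_b` (slc) and geometric generic
fibre `G`, a Calabi-Yau threefold with `H^1(O) = H^2(O) = 0`; so `h^1(O_(X_b)) = h^2(O_(X_b)) = 0`
(slc varieties are Du Bois). Let `x` be a Cartier class on `XX` which is semiample on `X_b`, and `s`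
a section of a multiple `k x` on `X_b` whose divisor `R` is a general member of a base point free
linear system.

The new argument (Lemma W): cup product with the localised Chern class of `(k x, s)` is a morphism of
mixed Hodge structures from `H^1(R)(-1)` (weights 2 and 3) to the limit `H` of `H^3(X_t)`, with
values in the kernel of the logarithm `M` of the monodromy. In type III with `h^(2,1) = 2` this
kernel is the image of `M^2` (proved here by linear algebra), of weight one; so the morphism is zero,
the periods of the holomorphic three-form on the classes in its image vanish, their Taylor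
coefficients are the obstructions to lifting `s`, and `s` lifts to all orders: a multiple of the
restriction of `x` to `G` is effective. Numerical dimension one and two are treated together, and no
fibration is deformed.
-/

namespace Pool.Agent.H79.MN

/-- A nilpotent matrix with `M^3 = 0` and `M^2` of rank at least two on a space of dimension six: the
kernel of `M` is the image of `M^2`. -/
theorem ker_eq_range (M : Matrix (Fin 6) (Fin 6) ℂ) (h3 : M ^ 3 = 0) (h2 : 2 ≤ (M ^ 2).rank)
    (v : Fin 6 → ℂ) (hv : M.mulVec v = 0) : ∃ w, (M ^ 2).mulVec w = v := by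
  classical
  obtain ⟨f, hf⟩ : ∃ f : (Fin 6 → ℂ) →ₗ[ℂ] (Fin 6 → ℂ), f = M.mulVecLin := ⟨_, rfl⟩
  have hff : (M ^ 2).mulVecLin = f ∘ₗ f := by
    rw [hf, pow_two, Matrix.mulVecLin_mul]
  have hfff : ∀ u, f (f (f u)) = 0 := by
    intro u
    have h : (M ^ 3).mulVecLin u = 0 := by rw [h3]; simp
    have h' : (M ^ 3) = M * (M * M) := by rw [pow_succ, pow_two, Matrix.mul_assoc]
    rw [h', Matrix.mulVecLin_mul, Matrix.mulVecLin_mul] at h
    rw [hf]
    exact h
  -- the range of `f ∘ f`
  obtain ⟨K, hK⟩ : ∃ K : Submodule ℂ (Fin 6 → ℂ), K = LinearMap.range (f ∘ₗ f) := ⟨_, rfl⟩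
  have hKdim : 2 ≤ Module.finrank ℂ K := by
    have h : (M ^ 2).rank = Module.finrank ℂ (LinearMap.range (M ^ 2).mulVecLin) := rfl
    rw [h, hff, ← hK] at h2
    exact h2
  -- rank and nullity of `f`
  have hn := LinearMap.finrank_range_add_finrank_ker f
  rw [Module.finrank_fin_fun] at hn
  -- rank and nullity of `f` on its range
  have hg := LinearMap.finrank_range_add_finrank_ker (f.domRestrict (LinearMap.range f))
  have hgr : LinearMap.range (f.domRestrict (LinearMap.range f)) = K := by
    rw [hK]
    ext y
    constructor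
    · rintro ⟨⟨z, w, rfl⟩, rfl⟩
      exact ⟨w, rfl⟩
    · rintro ⟨w, rfl⟩
      exact ⟨⟨f w, w, rfl⟩, rfl⟩
  rw [hgr] at hg
  have hle : Module.finrank ℂ K ≤
      Module.finrank ℂ (LinearMap.ker (f.domRestrict (LinearMap.range f))) := by
    have hmem : ∀ y : K, (y : Fin 6 → ℂ) ∈ LinearMap.range f := by
      rintro ⟨y, hy⟩
      rw [hK] at hy
      obtain ⟨w, rfl⟩ := hy
      exact ⟨f w, rfl⟩
    have hker : ∀ y : K, f (y : Fin 6 → ℂ) = 0 := by
      rintro ⟨y, hy⟩
      rw [hK] at hy
      obtain ⟨w, rfl⟩ := hy
      exact hfff w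
    let φ : K →ₗ[ℂ] LinearMap.ker (f.domRestrict (LinearMap.range f)) :=
      { toFun := fun y => ⟨⟨y, hmem y⟩, by
          rw [LinearMap.mem_ker, LinearMap.domRestrict_apply]
          exact hker y⟩
        map_add' := fun y z => rfl
        map_smul' := fun c y => rfl }
    refine LinearMap.finrank_le_finrank_of_injective (f := φ) ?_
    intro y z hyz
    apply Subtype.ext
    have h1 := congrArg Subtype.val hyz
    have h2 := congrArg Subtype.val h1
    exact h2
  have hkerle : K ≤ LinearMap.ker f := by
    intro y hy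
    rw [hK] at hy
    obtain ⟨w, rfl⟩ := hy
    rw [LinearMap.mem_ker]
    exact hfff w
  have heq : K = LinearMap.ker f := by
    apply Submodule.eq_of_le_of_finrank_le hkerle
    omega
  have hvk : v ∈ LinearMap.ker f := by
    rw [LinearMap.mem_ker, hf]
    exact hv
  rw [← heq, hK, ← hff] at hvk
  obtain ⟨w, hw⟩ := hvk
  exact ⟨w, hw⟩

/-- A section `s` of a Cartier class on the special fibre `X_b`, with divisor `R`, and the
obstructions to lifting it; `h` is `h^(2,1)(G)`, and `Eff` says that the class is effective on the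
geometric generic fibre `G`. `M` is the logarithm of the (unipotent) monodromy on the limit
`H = H^3_lim(X_t, ℂ)` of dimension `2 h + 2`. -/
structure SectionLift (h : ℕ) (Eff : Prop) where
  /-- `H^1(R, ℂ)` -/
  A : Type
  /-- `H^1(R, O_R)` -/
  O1 : Type
  /-- `H^1(X_b, O(x))`; it is `H^1(R, ω_R)`, because `ω_(X_b)` is trivial, `ω_R` is the restriction
  of `O(x)` (adjunction) and `H^1(O_(X_b)) = H^2(O_(X_b)) = 0` -/
  Ob : Type
  [zeroOb : Zero Ob]
  M : Matrix (Fin (2 * h + 2)) (Fin (2 * h + 2)) ℂ
  /-- type III (weights `1, .., 5`, monodromy theorem) -/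
  cube : M ^ 3 = 0
  /-- type III: `M^2` maps `Gr_5` isomorphically to `Gr_1`, and `Gr_5` contains `F^3` and its
  conjugate (Schmid; Steenbrink) -/
  two : 2 ≤ (M ^ 2).rank
  /-- the Hodge component `H^1(R, ℂ) -> H^1(R, O_R)` -/
  red : A → O1
  /-- `R` is a general member of a base point free linear system on the slc variety `X_b`, so it is
  slc, hence Du Bois (Kollár, Kovács) -/
  du_bois : ∀ u, ∃ a, red a = u
  /-- cup product and trace `H^1(R, ω_R) x H^1(R, O_R) -> H^2(R, ω_R) -> H^3(X_b, O) = ℂ`, multiplied
  by a non-zero constant -/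
  pair : Ob → O1 → ℂ
  /-- Serre duality on `R` -/
  serre : ∀ o, (∀ u, pair o u = 0) → o = 0
  /-- cup product with the localised Chern class of `(x, s)` in `H^2_R(X_b)(1)`, then
  `H^3_R(X_b) -> H^3(X_b) -> H` -/
  gysin : A → Fin (2 * h + 2) → ℂ
  /-- classes which come from `X_b` are invariant under monodromy -/
  inv : ∀ a, M.mulVec (gysin a) = 0
  /-- `gysin` is a morphism of mixed Hodge structures `H^1(R)(-1) -> H` (Deligne; Steenbrink), the
  source has weights 2 and 3, the image of `M^2` has weight one: strictness -/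
  strict : ∀ a w, (M ^ 2).mulVec w = gysin a → gysin a = 0
  /-- Taylor coefficients of the holomorphic function on `Delta` which is the image of the class of
  `a` in `H^3(XX, ℂ) = H^3(X_b, ℂ)` under `H^3(XX, ℂ) -> R^3 pi_* O = O` -/
  coef : ℕ → A → ℂ
  coef_zero : ∀ a, gysin a = 0 → ∀ n, coef n a = 0
  /-- sections on `X_b` modulo `t^(n+1)` which restrict to `s` -/
  Lift : ℕ → Type
  trunc : ∀ n, Lift (n + 1) → Lift n
  s : Lift 0
  /-- the obstruction to lifting one step further -/
  ob : ∀ n, Lift n → Ob
  lift : ∀ n x, ob n x = 0 → ∃ y : Lift (n + 1), trunc n y = x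
  /-- if `s` is lifted modulo `t^(n+1)`, the coefficient of `t^(n+1)` is given by the obstruction
  (Bloch 1972, Ran 1993, Buchweitz and Flenner 2003: semiregularity; for a divisor: exponential
  sequence on the complement of `R`) -/
  taylor : ∀ n x a, coef (n + 1) a = pair (ob n x) (red a)
  /-- Grothendieck: a section over the formal completion, not zero on `X_b` -/
  algebraize : (∃ x : ∀ n, Lift n, x 0 = s ∧ ∀ n, trunc n (x (n + 1)) = x n) → Eff

attribute [instance] SectionLift.zeroOb

namespace SectionLift

/-- Lemma W -/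
theorem gysin_eq_zero {Eff : Prop} (F : SectionLift 2 Eff) (a : F.A) : F.gysin a = 0 := by
  obtain ⟨w, hw⟩ := ker_eq_range F.M F.cube F.two (F.gysin a) (F.inv a)
  exact F.strict a w hw

theorem ob_eq_zero {Eff : Prop} (F : SectionLift 2 Eff) (n : ℕ) (x : F.Lift n) : F.ob n x = 0 := by
  apply F.serre
  intro u
  obtain ⟨a, rfl⟩ := F.du_bois u
  rw [← F.taylor n x a]
  exact F.coef_zero a (F.gysin_eq_zero a) _

/-- `s` lifts to all orders, so the class is effective on `G` -/
theorem effective {Eff : Prop} (F : SectionLift 2 Eff) : Eff := by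
  apply F.algebraize
  choose nxt hnxt using fun n (x : F.Lift n) => F.lift n x (F.ob_eq_zero n x)
  let x : ∀ n, F.Lift n := fun n => Nat.rec F.s (fun k y => nxt k y) n
  exact ⟨x, rfl, fun n => hnxt n (x n)⟩

end SectionLift

/-- The models over a boundary divisor of type III of the base of a family with `h = h^(2,1)`. -/
structure WeightGerm {P : Type} [AddCommGroup P] (g : Pool.Agent.H33.MN.Germ P) (h : ℕ)
    (hG : ℕ → P → ℕ) where
  /-- a semiample class on `X_b` has a base point free multiple, and a general member of the linear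
  system -/
  member : ∀ (mu : g.Mo) (x : g.Lam), g.SA mu x →
    ∃ k : ℕ, 0 < k ∧ Nonempty (SectionLift h (0 < hG 0 (k • g.rho x)))

/-- If a multiple of `L` extends to a class on a model which is semiample on the special fibre, then
a positive multiple of `L` is effective. -/
theorem WeightGerm.effective {P : Type} [AddCommGroup P] {g : Pool.Agent.H33.MN.Germ P}
    {hG : ℕ → P → ℕ} (C : WeightGerm g 2 hG) (L : P) (n : ℕ) (hn : 0 < n) (mu : g.Mo) (x : g.Lam)
    (hx : g.rho x = n • L) (hsa : g.SA mu x) : ∃ k : ℕ, 0 < k ∧ 0 < hG 0 (k • L) := by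
  obtain ⟨k, hk, ⟨F⟩⟩ := C.member mu x hsa
  refine ⟨k * n, Nat.mul_pos hk hn, ?_⟩
  have h := F.effective
  rwa [hx, smul_smul] at h

end Pool.Agent.H79.MN
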